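import Pool.Agent.helper18.HG.Spec

/-!
# Row `FAT` (MP_33a656_nt): Fatou's theorem
-/

set_option autoImplicit false

namespace Pool.Agent.helper18.HG

open Finset

theorem FAT_sum (a : Polynomial ℤ) (n : ℕ) :
    ∑ i ∈ range (n + 1), |a.coeff i| ≤ ∑ i ∈ range (a.natDegree + 1), |a.coeff i| := by
  have h1 : ∑ i ∈ range (a.natDegree + 1), |a.coeff i|
      = ∑ i ∈ range (max (n + 1) (a.natDegree + 1)), |a.coeff i| := by
    refine Finset.sum_subset (Finset.range_subset_range.2 (le_max_right _ _)) ?_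
    intro i _ hi
    rw [Finset.mem_range, not_lt] at hi
    rw [Polynomial.coeff_eq_zero_of_natDegree_lt (by omega), abs_zero]
  rw [h1]
  exact Finset.sum_le_sum_of_subset_of_nonneg (Finset.range_subset_range.2 (le_max_left _ _))
    fun i _ _ => abs_nonneg _

theorem FAT_bd (c : ℕ → ℤ) (M : ℤ) (hc : ∀ n, |c n| ≤ M) (a : Polynomial ℤ) (n : ℕ) :
    |PowerSeries.coeff n ((a : PowerSeries ℤ) * PowerSeries.mk c)| ≤
      (∑ i ∈ range (a.natDegree + 1), |a.coeff i|) * M := by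
  have hM : 0 ≤ M := le_trans (abs_nonneg _) (hc 0)
  rw [PowerSeries.coeff_mul, Finset.Nat.sum_antidiagonal_eq_sum_range_succ_mk]
  calc |∑ k ∈ range n.succ, PowerSeries.coeff k (a : PowerSeries ℤ) *
          PowerSeries.coeff (n - k) (PowerSeries.mk c)|
      ≤ ∑ k ∈ range n.succ, |PowerSeries.coeff k (a : PowerSeries ℤ) *
          PowerSeries.coeff (n - k) (PowerSeries.mk c)| := Finset.abs_sum_le_sum_abs _ _
    _ ≤ ∑ k ∈ range (n + 1), |a.coeff k| * M := by
        refine Finset.sum_le_sum fun k _ => ?_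
        rw [Polynomial.coeff_coe, PowerSeries.coeff_mk, abs_mul]
        exact mul_le_mul_of_nonneg_left (hc _) (abs_nonneg _)
    _ = (∑ k ∈ range (n + 1), |a.coeff k|) * M := by rw [Finset.sum_mul]
    _ ≤ _ := mul_le_mul_of_nonneg_right (FAT_sum a n) hM

theorem FAT (hNRM : NRM_stmt) (hMON : MON_stmt) (hBDD : BDD_stmt) (hREC : REC_stmt) : FAT_stmt := by
  intro c M hc hper A hA h0
  obtain ⟨a, Q, ha, hQ, hQ1, hQ0⟩ := hNRM _ A hA h0
  obtain ⟨K, hK⟩ := hMON _ Q hQ hQ1 hQ0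
  obtain ⟨P, hP⟩ := hBDD ((a : PowerSeries ℤ) * PowerSeries.mk c)
    (((∑ i ∈ range (a.natDegree + 1), |a.coeff i|) * M : ℤ) : ℝ) K (by
      intro n
      rw [Complex.norm_intCast, ← Int.cast_abs]
      exact_mod_cast FAT_bd c M hc a n) hK
  exact hper (hREC c M a P hc ha hP)

end Pool.Agent.helper18.HG
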